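import Mathlib
import Pool.Agent.H432.TC.Main

/-!
Counting functions of points with multiplicities.
-/

set_option autoImplicit false
set_option linter.unusedSectionVars false

namespace Pool.Agent.H432.RS

open NumberField IsDedekindDomain Height Module MvPolynomial Pool.Agent.N750 Pool.Agent.H432.RC
  Pool.Agent.H432.TC
open Pool.Agent.W180.OP (Pl av wt nrm le_nrm nrm_pos wt_nonneg exists_nrm nrm_nonneg)
open Pool.Agent.Q290.NF (ell ell_pos ind ind_pos ind_neg ind_nonneg supp_sub)

variable {M q w : ℕ}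

theorem one_le_pr {ι : Type} (s : Finset ι) (f : ι → ℝ) (h : ∀ j ∈ s, 1 ≤ f j) :
    1 ≤ ∏ j ∈ s, f j :=
  Finset.prod_induction f (fun x => 1 ≤ x)
    (fun a b ha hb => one_le_mul_of_one_le_of_one_le ha hb) le_rfl h

/-- the bound for the proximity of a point to the common zeros of forms -/
theorem vec_bound {k : Type} [Field k] [NumberField k] (F : Fin w → MvPolynomial (Fin M) k)
    (δ : ℕ) (hF : ∀ j, (F j).IsHomogeneous δ) : ∃ C : ℝ, 0 ≤ C ∧
    ∀ (L : Type) [Field L] [NumberField L] [Algebra k L] (x : Fin M → L), x ≠ 0 →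
      (∃ j, aeval x (F j) ≠ 0) → ∀ W : Finset (Pl L),
      ∑ p ∈ W, wt p * (δ * Real.log (nrm (av p) x) -
        Real.log (nrm (av p) (fun j => aeval x (F j)))) ≤
        δ * logHeight x - logHeight (fun j => aeval x (F j)) + finrank k L * C := by
  classical
  choose m c B hB hc0 hb using fun j => av_poly (F j) (hF j)
  have hBp : 1 ≤ ∏ j, B j := one_le_pr _ _ fun j _ => hB j
  have hlB : 0 ≤ Real.log (∏ j, B j) := Real.log_nonneg hBp
  refine ⟨∑ j, logHeight (c j) + finrank ℚ k * Real.log (∏ j, B j),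
    add_nonneg (Finset.sum_nonneg fun j _ => logHeight_nonneg _)
      (mul_nonneg (Nat.cast_nonneg _) hlB), ?_⟩
  intro L _ _ _ x hx hFx W
  set cL : ∀ j, Fin (m j + 1) → L := fun j i => algebraMap k L (c j i) with hcL
  have hcL1 : ∀ j, cL j 0 = 1 := by
    intro j
    show algebraMap k L (c j 0) = 1
    rw [hc0, map_one]
  have hcL0 : ∀ j, cL j ≠ 0 := fun j h => one_ne_zero ((hcL1 j).symm.trans (congrFun h 0))
  have hcn : ∀ (j) (p : Pl L), 1 ≤ nrm (av p) (cL j) := by
    intro j p
    have := le_nrm (av p) (cL j) 0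
    rwa [hcL1, map_one] at this
  have hF0 : (fun j => aeval x (F j)) ≠ 0 := by
    obtain ⟨j, hj⟩ := hFx
    exact fun h => hj (congrFun h j)
  have hcst : ∀ p : Pl L, 0 ≤ Real.log (cst (∏ j, B j) p) :=
    fun p => Real.log_nonneg (one_le_cst hBp p)
  have hle : ∀ (p : Pl L) (j : Fin w), cst (B j) p ≤ cst (∏ j, B j) p := by
    intro p j
    rcases p with w | v
    · exact le_prod_bd Finset.univ B (fun j _ => hB j) (Finset.mem_univ j)
    · exact le_rfl
  have hmain : ∀ p : Pl L, nrm (av p) (fun j => aeval x (F j)) ≤ cst (∏ j, B j) p *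
      ((∏ j, nrm (av p) (cL j)) * nrm (av p) x ^ δ) := by
    intro p
    have hcp : 0 < cst (∏ j, B j) p := cst_pos (by linarith) p
    have hxp := nrm_pos (av p) hx
    have hpr : 1 ≤ ∏ j, nrm (av p) (cL j) := one_le_pr _ _ fun j _ => hcn j p
    refine nrm_vec_le p _ (by positivity) fun j => ?_
    refine (hb j L x p).trans ?_
    refine mul_le_mul (hle p j) ?_ (mul_nonneg (nrm_nonneg _ _) (pow_nonneg hxp.le _)) hcp.le
    refine mul_le_mul_of_nonneg_right ?_ (pow_nonneg hxp.le _)
    exact le_prod_bd Finset.univ (fun j => nrm (av p) (cL j)) (fun j _ => hcn j p)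
      (Finset.mem_univ j)
  have h1 := ht_part (K := L) (Finset.univ : Finset (Fin 2 ⊕ Fin w))
    (fun i => match i with | Sum.inl 0 => M | Sum.inl 1 => w | Sum.inr j => m j + 1)
    (fun i => match i with
      | Sum.inl 0 => x | Sum.inl 1 => fun j => aeval x (F j) | Sum.inr j => cL j)
    (fun i => match i with | Sum.inl 0 => (δ : ℝ) | Sum.inl 1 => -1 | Sum.inr _ => 1) (by
      rintro (i | j) _
      · fin_cases i
        · exact hx
        · exact hF0
      · exact hcL0 j) (∏ j, B j) (by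
      intro p
      rw [Fintype.sum_sum_type, Fin.sum_univ_two]
      show 0 ≤ (δ : ℝ) * Real.log (nrm (av p) x) + -1 * Real.log (nrm (av p) (fun j =>
        aeval x (F j))) + ∑ j, 1 * Real.log (nrm (av p) (cL j)) + _
      have h2 := Real.log_le_log (nrm_pos (av p) hF0) (hmain p)
      have h3 : 0 < ∏ j, nrm (av p) (cL j) := Finset.prod_pos fun j _ => nrm_pos _ (hcL0 j)
      rw [Real.log_mul (cst_pos (by linarith) p).ne'
        (mul_pos h3 (pow_pos (nrm_pos _ hx) _)).ne',
        Real.log_mul h3.ne' (pow_pos (nrm_pos _ hx) _).ne', Real.log_pow,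
        Real.log_prod fun j _ => (nrm_pos _ (hcL0 j)).ne'] at h2
      simp only [one_mul]
      linarith) W
  rw [Fintype.sum_sum_type, Fin.sum_univ_two] at h1
  have h2 : ∑ p ∈ W, wt p * (δ * Real.log (nrm (av p) x) -
      Real.log (nrm (av p) (fun j => aeval x (F j)))) ≤
      ∑ p ∈ W, wt p * ((δ * Real.log (nrm (av p) x) -
        Real.log (nrm (av p) (fun j => aeval x (F j)))) +
        (∑ j, Real.log (nrm (av p) (cL j)) + Real.log (cst (∏ j, B j) p))) := by
    refine Finset.sum_le_sum fun p _ => mul_le_mul_of_nonneg_left ?_ (wt_nonneg p)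
    have := hcst p
    have := Finset.sum_nonneg (s := Finset.univ) fun j (_ : j ∈ Finset.univ) =>
      Real.log_nonneg (hcn j p)
    linarith
  refine h2.trans ((le_of_eq (Finset.sum_congr rfl fun p _ => ?_)).trans
    (h1.trans (le_of_eq ?_)))
  · rw [Fintype.sum_sum_type, Fin.sum_univ_two]
    show _ = wt p * ((δ : ℝ) * Real.log (nrm (av p) x) + -1 * Real.log (nrm (av p) (fun j =>
      aeval x (F j))) + ∑ j, 1 * Real.log (nrm (av p) (cL j)) + _)
    simp only [one_mul]
    ring
  show (δ : ℝ) * logHeight x + -1 * logHeight (fun j => aeval x (F j)) +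
    ∑ j, 1 * logHeight (cL j) + finrank ℚ L * Real.log (∏ j, B j) = _
  have h3 : ∀ j, logHeight (cL j) = finrank k L * logHeight (c j) := fun j =>
    Pool.Agent.Helper259.HtExt.logHeight_ext (c j)
  have h4 : (finrank ℚ L : ℝ) = finrank ℚ k * finrank k L := by
    exact_mod_cast (finrank_mul_finrank ℚ k L).symm
  simp only [h3, one_mul]
  rw [h4, ← Finset.mul_sum]
  ring

/-- the counting function of a component with multiplicity -/
theorem cnt_mult {k : Type} [Field k] [NumberField k] (F : Fin w → MvPolynomial (Fin M) k)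
    (δ : ℕ) (hF : ∀ j, (F j).IsHomogeneous δ) : ∃ C : ℝ, 0 ≤ C ∧
    ∀ (L : Type) [Field L] [NumberField L] [Algebra k L] (x : Fin M → L), x ≠ 0 →
      (∃ j, aeval x (F j) ≠ 0) → ∀ (S : Finset (HeightOneSpectrum (𝓞 L))) (r : ℕ),
      (∀ v ∉ S, (∀ j, av (Sum.inr v : Pl L) (aeval x (F j)) <
        nrm (av (Sum.inr v : Pl L)) x ^ δ) →
        r * ell v ≤ δ * Real.log (nrm (av (Sum.inr v : Pl L)) x) -
        Real.log (nrm (av (Sum.inr v : Pl L)) (fun j => aeval x (F j)))) →
      r * Pool.Agent.Q290.NF.wt (fun v => v ∉ S ∧ ∀ j, av (Sum.inr v : Pl L) (aeval x (F j)) <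
        nrm (av (Sum.inr v : Pl L)) x ^ δ) ≤
        δ * logHeight x - logHeight (fun j => aeval x (F j)) + finrank k L * C := by
  classical
  obtain ⟨C, hC, hb⟩ := vec_bound F δ hF
  refine ⟨C, hC, ?_⟩
  intro L _ _ _ x hx hFx S r hr
  have hfin : {v : HeightOneSpectrum (𝓞 L) | v ∉ S ∧ ∀ j, av (Sum.inr v : Pl L)
      (aeval x (F j)) < nrm (av (Sum.inr v : Pl L)) x ^ δ}.Finite := by
    refine (DM_fin (F := fun _ : Fin 1 => F) (δ := fun _ => δ) hx (fun _ => hFx)).subset ?_
    rintro v ⟨-, hv⟩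
    exact ⟨0, hv⟩
  set T := hfin.toFinset with hT
  have e1 : Pool.Agent.Q290.NF.wt (fun v => v ∉ S ∧ ∀ j, av (Sum.inr v : Pl L)
      (aeval x (F j)) < nrm (av (Sum.inr v : Pl L)) x ^ δ) = ∑ v ∈ T, ell v := by
    unfold Pool.Agent.Q290.NF.wt
    rw [finsum_eq_sum_of_support_subset (s := T)]
    · refine Finset.sum_congr rfl fun v hv => ?_
      rw [hT, Set.Finite.mem_toFinset] at hv
      exact ind_pos hv
    · rw [hT, Set.Finite.coe_toFinset]
      exact supp_sub _
  rw [e1, Finset.mul_sum]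
  have h1 := hb L x hx hFx (T.map ⟨Sum.inr, Sum.inr_injective⟩)
  rw [Finset.sum_map] at h1
  refine le_trans (Finset.sum_le_sum fun v hv => ?_) h1
  rw [hT, Set.Finite.mem_toFinset] at hv
  have h2 := hr v hv.1 hv.2
  have e2 : wt (Sum.inr v : Pl L) = 1 := rfl
  show _ ≤ wt (Sum.inr v : Pl L) * _
  rw [e2, one_mul]
  exact h2

end Pool.Agent.H432.RS
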