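import Mathlib
import Pool.Agent.H432.RS.Cmp

/-!
The inequality for points with multiplicities.
-/

set_option autoImplicit false
set_option linter.unusedSectionVars false

namespace Pool.Agent.H432.RS

open NumberField IsDedekindDomain Height Module MvPolynomial Pool.Agent.N750 Pool.Agent.H432.RC
  Pool.Agent.H432.TC
open Pool.Agent.W180.OP (Pl av wt nrm le_nrm nrm_pos wt_nonneg exists_nrm nrm_nonneg)
open Pool.Agent.Q290.NF (ell ell_pos ind ind_pos ind_neg ind_nonneg supp_sub)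
open Pool.Agent.Results.MP_4d5ce1_nt.ThinSetsSuffice (AllPoints)

variable {M g q w n' d : ℕ}

/-- the point meets the component modulo `v` -/
def D1 {k L : Type} [Field k] [Field L] [NumberField L] [Algebra k L]
    (F : Fin w → MvPolynomial (Fin M) k) (δ : ℕ) (x : Fin M → L)
    (v : HeightOneSpectrum (𝓞 L)) : Prop :=
  ∀ j, av (Sum.inr v : Pl L) (aeval x (F j)) < nrm (av (Sum.inr v : Pl L)) x ^ δ

/-- the height with respect to a component -/
noncomputable def hD {k L : Type} [Field k] [Field L] [NumberField L] [Algebra k L]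
    (F : Fin w → MvPolynomial (Fin M) k) (δ : ℕ) (x : Fin M → L) : ℝ :=
  (δ : ℝ) * logHeight x - logHeight (fun j => aeval x (F j))

/-- the sum over the components which are not in `J` -/
theorem split {L : Type} [Field L] [NumberField L] (J : Finset (Fin q))
    (P : Fin q → HeightOneSpectrum (𝓞 L) → Prop) (hP : ∀ i, {v | P i v}.Finite)
    (S : Finset (HeightOneSpectrum (𝓞 L))) :
    Pool.Agent.Q290.NF.wt (fun v => v ∉ S ∧ ∃ i, P i v) ≤
      Pool.Agent.Q290.NF.wt (fun v => v ∉ S ∧ ∃ i ∈ J, P i v) +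
      ∑ i ∈ Finset.univ \ J, Pool.Agent.Q290.NF.wt (fun v => v ∉ S ∧ P i v) := by
  classical
  have key : ∀ I : Finset (Fin q),
      Pool.Agent.Q290.NF.wt (fun v => v ∉ S ∧ ∃ i, (i ∈ J ∨ i ∈ I) ∧ P i v) ≤
      Pool.Agent.Q290.NF.wt (fun v => v ∉ S ∧ ∃ i ∈ J, P i v) +
      ∑ i ∈ I, Pool.Agent.Q290.NF.wt (fun v => v ∉ S ∧ P i v) := by
    intro I
    have hfin : ∀ Q : Fin q → Prop, {v | v ∉ S ∧ ∃ i, Q i ∧ P i v}.Finite := by
      intro Q
      refine (Set.finite_iUnion hP).subset ?_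
      rintro v ⟨-, i, -, hi⟩
      exact Set.mem_iUnion.2 ⟨i, hi⟩
    induction I using Finset.induction_on with
    | empty =>
      rw [Finset.sum_empty, add_zero]
      refine Pool.Agent.Q290.NF.wt_mono (hfin fun i => i ∈ J) ?_
      rintro v ⟨h1, i, h2 | h2, h3⟩
      · exact ⟨h1, i, h2, h3⟩
      · exact absurd h2 (Finset.notMem_empty i)
    | insert a I ha ih =>
      rw [Finset.sum_insert ha]
      have h1 : Pool.Agent.Q290.NF.wt (fun v => v ∉ S ∧ ∃ i, (i ∈ J ∨ i ∈ insert a I) ∧ P i v) ≤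
          Pool.Agent.Q290.NF.wt (fun v => (v ∉ S ∧ ∃ i, (i ∈ J ∨ i ∈ I) ∧ P i v) ∨
            (v ∉ S ∧ P a v)) := by
        refine Pool.Agent.Q290.NF.wt_mono ((hfin fun i => i ∈ J ∨ i ∈ I).union
          ((hP a).subset fun v hv => hv.2)) ?_
        rintro v ⟨h1, i, h2, h3⟩
        rcases h2 with h2 | h2
        · exact Or.inl ⟨h1, i, Or.inl h2, h3⟩
        · rcases Finset.mem_insert.1 h2 with h4 | h4
          · rw [h4] at h3
            exact Or.inr ⟨h1, h3⟩
          · exact Or.inl ⟨h1, i, Or.inr h4, h3⟩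
      have hPa : {v | v ∉ S ∧ P a v}.Finite := (hP a).subset fun v hv => hv.2
      have h2 := Pool.Agent.Q290.NF.wt_or_le (hfin fun i => i ∈ J ∨ i ∈ I) hPa
      linarith
  refine le_trans ?_ (key (Finset.univ \ J))
  refine Pool.Agent.Q290.NF.wt_mono ?_ ?_
  · refine (Set.finite_iUnion hP).subset ?_
    rintro v ⟨-, i, -, hi⟩
    exact Set.mem_iUnion.2 ⟨i, hi⟩
  · rintro v ⟨h1, i, hi⟩
    refine ⟨h1, i, ?_, hi⟩
    by_cases h : i ∈ J
    · exact Or.inl h
    · exact Or.inr (Finset.mem_sdiff.2 ⟨Finset.mem_univ _, h⟩)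

/-- the passage from the inequality for the divisor to the inequality for all multiplicities -/
theorem pass {k : Type} [Field k] [NumberField k]
    (F : Fin q → Fin w → MvPolynomial (Fin M) k) (δ : Fin q → ℕ)
    (hF : ∀ i j, (F i j).IsHomogeneous (δ i)) :
    ∃ C : ℝ, ∀ (L : Type) [Field L] [NumberField L] [Algebra k L] (x : Fin M → L), x ≠ 0 →
      (∀ i, ∃ j, aeval x (F i j) ≠ 0) → ∀ (S : Finset (HeightOneSpectrum (𝓞 L))) (r : Fin q → ℕ)
      (J : Finset (Fin q)), (∀ i, 1 ≤ r i) →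
      (∀ v ∉ S, ∀ i ∉ J, D1 (F i) (δ i) x v → r i * ell v ≤
        δ i * Real.log (nrm (av (Sum.inr v : Pl L)) x) -
        Real.log (nrm (av (Sum.inr v : Pl L)) (fun j => aeval x (F i j)))) →
      Pool.Agent.Q290.NF.wt (fun v => v ∉ S ∧ DM F δ x v) ≤
        Pool.Agent.Q290.NF.wt (fun v => v ∉ S ∧ ∃ i ∈ J, D1 (F i) (δ i) x v) +
        ∑ i ∈ Finset.univ \ J, 1 / (r i : ℝ) * hD (F i) (δ i) x + finrank k L * C := by
  classical
  choose C hC hb using fun i => cnt_mult (F i) (δ i) (hF i)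
  refine ⟨∑ i, C i, ?_⟩
  intro L _ _ _ x hx hxF S r J hr hcond
  have hP : ∀ i, {v | D1 (F i) (δ i) x v}.Finite := by
    intro i
    refine (DM_fin (δ := δ) hx hxF).subset ?_
    intro v hv
    exact ⟨i, hv⟩
  have h1 := split J (fun i v => D1 (F i) (δ i) x v) hP S
  have h2 : ∑ i ∈ Finset.univ \ J, Pool.Agent.Q290.NF.wt (fun v => v ∉ S ∧ D1 (F i) (δ i) x v) ≤
      ∑ i ∈ Finset.univ \ J, (1 / (r i : ℝ) * hD (F i) (δ i) x + finrank k L * C i) := by
    refine Finset.sum_le_sum fun i hi => ?_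
    have hi' : i ∉ J := (Finset.mem_sdiff.1 hi).2
    have h3 := hb i L x hx (hxF i) S (r i) fun v hv hd => hcond v hv i hi' hd
    have h4 : (1 : ℝ) ≤ r i := by exact_mod_cast hr i
    have h5 : (0 : ℝ) < r i := by linarith
    have h6 : Pool.Agent.Q290.NF.wt (fun v => v ∉ S ∧ D1 (F i) (δ i) x v) ≤
        (hD (F i) (δ i) x + finrank k L * C i) / r i := by
      rw [le_div_iff₀ h5, mul_comm]
      exact h3
    refine h6.trans ?_
    rw [add_div]
    have h7 : (finrank k L : ℝ) * C i / r i ≤ finrank k L * C i :=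
      div_le_self (mul_nonneg (Nat.cast_nonneg _) (hC i)) h4
    have h8 : hD (F i) (δ i) x / r i = 1 / (r i : ℝ) * hD (F i) (δ i) x := by ring
    rw [h8]
    linarith
  rw [Finset.sum_add_distrib, ← Finset.mul_sum] at h2
  have h3 : ∑ i ∈ Finset.univ \ J, C i ≤ ∑ i, C i :=
    Finset.sum_le_sum_of_subset_of_nonneg (Finset.sdiff_subset) fun i _ _ => hC i
  have h4 : (finrank k L : ℝ) * ∑ i ∈ Finset.univ \ J, C i ≤ finrank k L * ∑ i, C i :=
    mul_le_mul_of_nonneg_left h3 (Nat.cast_nonneg _)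
  have e1 : Pool.Agent.Q290.NF.wt (fun v => v ∉ S ∧ DM F δ x v) =
      Pool.Agent.Q290.NF.wt (fun v => v ∉ S ∧ ∃ i, D1 (F i) (δ i) x v) := rfl
  rw [e1]
  linarith

/-- the weights of the components -/
theorem weights (J : Finset (Fin q)) (r : Fin q → ℕ) (h : Fin q → ℝ) [DecidablePred (· ∈ J)] :
    ∑ i, (if i ∈ J then 1 else 1 - 1 / (r i : ℝ)) * h i =
      ∑ i, h i - ∑ i ∈ Finset.univ \ J, 1 / (r i : ℝ) * h i := by
  classical
  rw [eq_sub_iff_add_eq, ← Finset.sum_sdiff (Finset.subset_univ J),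
    ← Finset.sum_sdiff (Finset.subset_univ J) (f := fun i => h i), add_right_comm,
    ← Finset.sum_add_distrib]
  congr 1
  · refine Finset.sum_congr rfl fun i hi => ?_
    rw [if_neg (Finset.mem_sdiff.1 hi).2]
    ring
  · refine Finset.sum_congr rfl fun i hi => ?_
    rw [if_pos hi, one_mul]

end Pool.Agent.H432.RS
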